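import Mathlib

namespace Pool.Agent.Results.MP_98e941_al.FixedVector

/-- first-order formulas over module variables and group variables indexed by `ℕ` -/
inductive Fm (K : Type) [Ring K] : Type
  | act : ((ℕ × FreeGroup ℕ) →₀ K) → Fm K
  | grp : FreeGroup ℕ → Fm K
  | and : Fm K → Fm K → Fm K
  | or : Fm K → Fm K → Fm K
  | not : Fm K → Fm K
  | allX : ℕ → Fm K → Fm K
  | exX : ℕ → Fm K → Fm K
  | allY : ℕ → Fm K → Fm K
  | exY : ℕ → Fm K → Fm K

variable {K : Type} [Ring K]

/-- formulas of action -/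
def IsAction : Fm K → Prop
  | .act _ => True
  | .grp _ => False
  | .and p q => IsAction p ∧ IsAction q
  | .or p q => IsAction p ∧ IsAction q
  | .not p => IsAction p
  | .allX _ p => IsAction p
  | .exX _ p => IsAction p
  | .allY _ _ => False
  | .exY _ _ => False

/-- right actions of `G` on `V` by `K`-automorphisms -/
abbrev Act (K V G : Type) [Ring K] [AddCommGroup V] [Module K V] [Group G] : Type :=
  G →* (V ≃ₗ[K] V)ᵐᵒᵖ

/-- value of `x₁ ∘ u₁ + ⋯ + xₙ ∘ uₙ` -/
noncomputable def val {V G : Type} [AddCommGroup V] [Module K V] [Group G] (ρ : Act K V G)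
    (μ : ℕ → V) (ν : ℕ → G) (w : (ℕ × FreeGroup ℕ) →₀ K) : V :=
  w.sum fun p k => k • (ρ (FreeGroup.lift ν p.2)).unop (μ p.1)

/-- satisfaction under an assignment -/
def Sat {V G : Type} [AddCommGroup V] [Module K V] [Group G] (ρ : Act K V G) :
    Fm K → (ℕ → V) → (ℕ → G) → Prop
  | .act w => fun μ ν => val ρ μ ν w = 0
  | .grp f => fun _ ν => FreeGroup.lift ν f = 1
  | .and p q => fun μ ν => Sat ρ p μ ν ∧ Sat ρ q μ ν
  | .or p q => fun μ ν => Sat ρ p μ ν ∨ Sat ρ q μ ν
  | .not p => fun μ ν => ¬ Sat ρ p μ ν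
  | .allX i p => fun μ ν => ∀ v, Sat ρ p (Function.update μ i v) ν
  | .exX i p => fun μ ν => ∃ v, Sat ρ p (Function.update μ i v) ν
  | .allY j p => fun μ ν => ∀ g, Sat ρ p μ (Function.update ν j g)
  | .exY j p => fun μ ν => ∃ g, Sat ρ p μ (Function.update ν j g)

/-- classes of representations -/
abbrev Cls (K : Type) [Ring K] : Type 1 :=
  ∀ (V G : Type) [AddCommGroup V] [Module K V] [Group G], Act K V G → Prop

def DefinedBy (C : Cls K) (T : Set (Fm K)) : Prop :=
  ∀ (V G : Type) [AddCommGroup V] [Module K V] [Group G] (ρ : Act K V G),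
    C V G ρ ↔ ∀ p ∈ T, ∀ μ ν, Sat ρ p μ ν

def Abstract (C : Cls K) : Prop :=
  ∀ (V G W H : Type) [AddCommGroup V] [Module K V] [Group G] [AddCommGroup W] [Module K W]
    [Group H] (ρ : Act K V G) (τ : Act K W H) (e : V ≃ₗ[K] W) (f : G ≃* H),
    (∀ v g, e ((ρ g).unop v) = (τ (f g)).unop (e v)) → C V G ρ → C W H τ

def Saturated (C : Cls K) : Prop :=
  ∀ (V G : Type) [AddCommGroup V] [Module K V] [Group G] (ρ : Act K V G),
    C V G ρ ↔ C V (G ⧸ ρ.ker) (QuotientGroup.kerLift ρ)

def RightHereditary (C : Cls K) : Prop :=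
  ∀ (V G : Type) [AddCommGroup V] [Module K V] [Group G] (ρ : Act K V G) (H : Subgroup G),
    C V G ρ → C V H (ρ.comp H.subtype)

theorem sat_comp {V G H : Type} [AddCommGroup V] [Module K V] [Group G] [Group H]
    (ρ : Act K V G) (f : H →* G) (ν : ℕ → H) (p : Fm K) (hp : IsAction p) :
    ∀ μ, Sat (ρ.comp f) p μ ν ↔ Sat ρ p μ (f ∘ ν) := by
  induction p with
  | act w =>
    intro μ
    have : ∀ x, f (FreeGroup.lift ν x) = FreeGroup.lift (f ∘ ν) x := fun x =>
      FreeGroup.lift_unique (f.comp (FreeGroup.lift ν)) (by simp)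
    simp only [Sat, val, MonoidHom.comp_apply, this]
  | grp f => exact hp.elim
  | and p q ih ih' => intro μ; simp only [Sat, ih hp.1, ih' hp.2]
  | or p q ih ih' => intro μ; simp only [Sat, ih hp.1, ih' hp.2]
  | not p ih => intro μ; simp only [Sat, ih hp]
  | allX i p ih => intro μ; simp only [Sat, ih hp]
  | exX i p ih => intro μ; simp only [Sat, ih hp]
  | allY j p _ => exact hp.elim
  | exY j p _ => exact hp.elim

def Fx (K : Type) [Ring K] : Cls K := fun V _ _ _ _ ρ => ∃ v : V, v ≠ 0 ∧ ∀ g, (ρ g).unop v = v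

noncomputable def ax (K : Type) [Ring K] : Fm K :=
  .exX 0 (.and (.not (.act (Finsupp.single (0, 1) 1)))
    (.allY 0 (.act (Finsupp.single (0, FreeGroup.of 0) 1 - Finsupp.single (0, 1) 1))))

def GG : Subgroup (Equiv.Perm ℝ) where
  carrier := {s | {x | s x ≠ x}.Countable}
  one_mem' := by simp
  mul_mem' := by
    intro s t hs ht
    refine (Set.Countable.union hs ht).mono fun x hx => ?_
    by_contra hc
    simp only [Set.mem_union, Set.mem_ofPred_eq, not_or, not_not] at hc
    exact hx (by simp [hc.1, hc.2])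
  inv_mem' := by
    intro s hs
    have hs' : {x | s x ≠ x}.Countable := hs
    refine hs'.mono fun x hx => ?_
    intro h
    exact hx (Equiv.Perm.inv_eq_iff_eq.2 h.symm)

noncomputable def rho (K : Type) [Ring K] : Act K (ℝ →₀ K) GG where
  toFun s := MulOpposite.op (Finsupp.domLCongr (Equiv.symm s.1))
  map_one' := by
    apply MulOpposite.unop_injective
    ext v x
    simp
  map_mul' s t := by
    apply MulOpposite.unop_injective
    ext v x
    simp

theorem rho_apply (s : GG) (v : ℝ →₀ K) (x : ℝ) : (rho K s).unop v x = v (s.1 x) := by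
  simp [rho]

theorem result (K : Type) [Ring K] [Nontrivial K] :
    ∃ C : Cls K, Abstract C ∧ (∃ T, DefinedBy C T) ∧ Saturated C ∧ RightHereditary C ∧
      ¬ ∃ T, (∀ p ∈ T, IsAction p) ∧ DefinedBy C T := by
  classical
  refine ⟨Fx K, ?_, ⟨{ax K}, ?_⟩, ?_, ?_, ?_⟩
  · rintro V G W H _ _ _ _ _ _ ρ τ e f h ⟨v, hv, hf⟩
    refine ⟨e v, by simpa using hv, fun g => ?_⟩
    obtain ⟨g, rfl⟩ := f.surjective g
    rw [← h, hf]
  · intro V G _ _ _ ρ
    have key : ∀ μ ν, Sat ρ (ax K) μ ν ↔ Fx K V G ρ := by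
      intro μ ν
      simp [ax, Sat, val, Fx, Finsupp.sum_sub_index, sub_smul, sub_eq_zero]
    simp only [Set.mem_singleton_iff, forall_eq, key]
    exact ⟨fun h _ _ => h, fun h => h 0 1⟩
  · intro V G _ _ _ ρ
    refine exists_congr fun v => and_congr_right fun _ => ⟨fun h g => ?_, fun h g => h g⟩
    obtain ⟨g, rfl⟩ := QuotientGroup.mk_surjective g
    exact h g
  · rintro V G _ _ _ ρ H ⟨v, hv, hf⟩
    exact ⟨v, hv, fun g => hf g⟩
  · rintro ⟨T, hT, hD⟩
    have : Fx K _ _ (rho K) := by
      refine (hD _ _ _).2 fun p hp μ ν => ?_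
      have hc : (⋃ n, {x | (ν n).1 x ≠ x}).Countable := Set.countable_iUnion fun n => (ν n).2
      obtain ⟨i, hi⟩ : ∃ i, i ∉ ⋃ n, {x | (ν n).1 x ≠ x} := by
        by_contra h
        push Not at h
        exact Set.not_countable_univ (hc.mono fun x _ => h x)
      let H : Subgroup GG := MulAction.stabilizer GG i
      have hν : ∀ n, ν n ∈ H := fun n => by
        by_contra h
        exact hi (Set.mem_iUnion.2 ⟨n, h⟩)
      have h1 : Fx K _ _ ((rho K).comp H.subtype) := by
        refine ⟨Finsupp.single i 1, by simp, fun g => ?_⟩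
        ext x
        have hg : g.1.1 i = i := g.2
        change (rho K g.1).unop _ x = _
        rw [rho_apply, Finsupp.single_apply, Finsupp.single_apply]
        have : i = g.1.1 x ↔ i = x := by
          conv_lhs => rw [← hg]
          exact g.1.1.injective.eq_iff
        simp only [this]
      exact (sat_comp _ H.subtype (fun n => ⟨ν n, hν n⟩) p (hT p hp) μ).1
        ((hD _ _ _).1 h1 p hp μ _)
    obtain ⟨v, hv, hf⟩ := this
    obtain ⟨i, hi⟩ := Finsupp.support_nonempty_iff.2 hv
    obtain ⟨j, hj⟩ := Infinite.exists_notMem_finset v.support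
    have hs : Equiv.swap i j ∈ GG := by
      refine (Set.toFinite {i, j}).countable.mono fun x hx => ?_
      by_contra hc
      simp only [Set.mem_insert_iff, Set.mem_singleton_iff, not_or] at hc
      exact hx (Equiv.swap_apply_of_ne_of_ne hc.1 hc.2)
    have := rho_apply ⟨_, hs⟩ v i
    rw [hf] at this
    simp only [Equiv.swap_apply_left] at this
    exact Finsupp.mem_support_iff.1 hi (this.trans (Finsupp.notMem_support_iff.1 hj))

end Pool.Agent.Results.MP_98e941_al.FixedVector
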